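import Pool.Agent.PSS.StmtsS5

/-! Row RFJ of squad PSS (helper94). -/

open scoped BigOperators

noncomputable section

namespace Pool.Agent.PSS.S5.H94

open Pool.Agent.PSS Pool.Agent.PSS.S5
open Pool.Agent.PFC (tw)
open Pool.Agent.PFD.D2b (FrR)

theorem rfj (dfr : DfrStmt) (drf : DrfStmt) : RfjStmt := by
  intro F V E A Y K _ _ _ _ _ _ _ _ _ φ α lam x y j αY κ hper hRF hjj hj hc
  obtain ⟨Ω, fΩ, aΩ, b, c, hfr, hst⟩ := hper
  obtain ⟨d, hcd, hD⟩ := dfr F V E A K Ω φ α lam x y b c hRF hfr hst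
  have hcm : ∀ v : V, α v * j = j * α v := fun v => mem_cw.1 hj v (Subgroup.mem_top v)
  have hb' : ∀ ω, ∃ z : Y, κ z = j * b ω * j := fun ω => hc.ran _
    (by rw [← mul_assoc, ← mul_assoc, hjj]) (by rw [mul_assoc, hjj])
  have hd' : ∀ ω, ∃ z : Y, κ z = j * d ω * j := fun ω => hc.ran _
    (by rw [← mul_assoc, ← mul_assoc, hjj]) (by rw [mul_assoc, hjj])
  choose b' hb' using hb'
  choose d' hd' using hd'
  have hκ : ∀ a : Y, j * κ a * j = κ a := fun a => by
    rw [← hc.one, ← hc.mul, ← hc.mul, one_mul, mul_one]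
  have hκl : ∀ a : Y, j * κ a = κ a := fun a => by
    rw [← hc.one, ← hc.mul, one_mul]
  have hκr : ∀ a : Y, κ a * j = κ a := fun a => by
    rw [← hc.one, ← hc.mul, mul_one]
  -- moving the group elements
  have hmv : ∀ (u v : V) (a : A), j * (α u * a * α v) * j = α u * j * (j * a * j) * (α v * j) := by
    intro u v a
    calc j * (α u * a * α v) * j = (j * α u) * a * (α v * j) := by simp only [mul_assoc]
      _ = (α u * (j * j)) * a * ((j * j) * α v) := by rw [hjj, ← hcm, ← hcm]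
      _ = (α u * j) * (j * a * j) * (j * α v) := by simp only [mul_assoc]
      _ = α u * j * (j * a * j) * (α v * j) := by rw [hcm v]
  have hDY : DFr F αY (lam.comp κ) b' d' := by
    refine ⟨?_, ?_, ?_, ?_, hD.fl, hD.fr⟩
    · intro a a'
      show lam (κ (a * a')) = lam (κ (a' * a))
      rw [hc.mul, hc.mul, hD.sym]
    · intro u v ω
      apply hc.inj
      rw [hb', hD.eb, hc.mul, hc.mul, hc.cov, hc.cov, hb', hmv]
    · intro u v ω
      apply hc.inj
      rw [hd', hD.ed, hc.mul, hc.mul, hc.cov, hc.cov, hd', hmv]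
    · intro a
      apply hc.inj
      rw [map_sum]
      have h1 : ∀ ω, κ (lam.comp κ (d' ω * a) • b' ω) =
          j * (lam (d ω * κ a) • b ω) * j := by
        intro ω
        rw [map_smul, hb']
        show lam (κ (d' ω * a)) • (j * b ω * j) = _
        have h2 : lam (κ (d' ω * a)) = lam (d ω * κ a) := by
          rw [hc.mul, hd', mul_assoc, hκl, mul_assoc, hD.sym, mul_assoc, hκr]
        rw [h2, mul_smul_comm, smul_mul_assoc]
      rw [Finset.sum_congr rfl (fun ω _ => h1 ω), ← Finset.sum_mul, ← Finset.mul_sum,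
        hD.sum, hκ]
  exact ⟨_, inferInstance, _, _, drf F V Y Ω αY (lam.comp κ) b' d' hDY⟩

end Pool.Agent.PSS.S5.H94
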